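import Mathlib

set_option autoImplicit false

/-! # Counting primes -/

namespace Pool.Agent.T9h29.QA

open Finset Filter Topology

/-- the primes up to `w` -/
def prs (w : ℕ) : Finset ℕ := (Icc 1 w).filter (fun q => q.Prime)

lemma prs_card (w : ℕ) : #(prs w) = Nat.primeCounting w := by
  rw [Nat.primeCounting, Nat.primeCounting', Nat.count_eq_card_filter_range]
  congr 1
  ext q
  simp only [prs, mem_filter, mem_Icc, mem_range]
  constructor
  · rintro ⟨⟨h1, h2⟩, h3⟩; exact ⟨by omega, h3⟩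
  · rintro ⟨h1, h3⟩; exact ⟨⟨h3.one_le, by omega⟩, h3⟩

lemma prs_lower (ε : ℝ) (hε : 0 < ε) : ∀ᶠ w : ℕ in atTop, (w : ℝ) ^ (1 - ε) ≤ #(prs w) := by
  have h1 : ∀ᶠ w : ℕ in atTop, 4 * Real.log w ≤ (w : ℝ) ^ ε := by
    have h := (isLittleO_log_rpow_atTop hε).bound (show (0 : ℝ) < 1 / 4 by norm_num)
    have h2 := tendsto_natCast_atTop_atTop (R := ℝ) |>.eventually h
    filter_upwards [h2, eventually_ge_atTop 1] with w hw h3
    have h4 : 0 ≤ Real.log w := Real.log_natCast_nonneg w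
    rw [Real.norm_eq_abs, Real.norm_eq_abs, abs_of_nonneg h4, abs_of_nonneg (by positivity)] at hw
    linarith
  have h2 : ∀ᶠ w : ℕ in atTop, 8 * Real.log w ≤ (w : ℝ) := by
    have h := (isLittleO_log_rpow_atTop (one_pos)).bound (show (0 : ℝ) < 1 / 8 by norm_num)
    have h2 := tendsto_natCast_atTop_atTop (R := ℝ) |>.eventually h
    filter_upwards [h2, eventually_ge_atTop 1] with w hw h3
    have h4 : 0 ≤ Real.log w := Real.log_natCast_nonneg w
    rw [Real.norm_eq_abs, Real.norm_eq_abs, abs_of_nonneg h4, abs_of_nonneg (by positivity),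
      Real.rpow_one] at hw
    linarith
  filter_upwards [h1, h2, eventually_ge_atTop 3] with w hw hw2 hw3
  have hw0 : (0 : ℝ) < w := by exact_mod_cast (by omega : 0 < w)
  have hw3' : (3 : ℝ) ≤ w := by exact_mod_cast hw3
  have hlog : 1 ≤ Real.log w := by
    rw [Real.le_log_iff_exp_le hw0]
    have := Real.exp_one_lt_d9
    linarith
  rw [prs_card]
  refine le_trans ?_ (Chebyshev.pi_ge w)
  rw [le_div_iff₀ (by linarith)]
  have h3 : Real.log ((w : ℝ) + 1) ≤ 2 * Real.log w := by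
    rw [← Real.log_rpow hw0]
    apply Real.log_le_log (by positivity)
    have : (w : ℝ) ^ (2 : ℝ) = (w : ℝ) * w := by
      rw [show (2 : ℝ) = ((2 : ℕ) : ℝ) by norm_num, Real.rpow_natCast]; ring
    rw [this]
    nlinarith
  have h4 : (w : ℝ) ^ (1 - ε) * Real.log w ≤ w / 4 := by
    have h5 : (w : ℝ) ^ (1 - ε) * (4 * Real.log w) ≤ (w : ℝ) ^ (1 - ε) * (w : ℝ) ^ ε :=
      mul_le_mul_of_nonneg_left hw (by positivity)
    rw [← Real.rpow_add hw0, sub_add_cancel, Real.rpow_one] at h5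
    linarith
  have h5 := Real.log_two_gt_d9
  nlinarith

lemma pi_small (ε : ℝ) (hε : 0 < ε) : ∃ C : ℝ, 0 < C ∧ ∀ m : ℕ,
    (Nat.primeCounting m : ℝ) ≤ ε * m + C := by
  have h1 := Chebyshev.eventually_primeCounting_le (ε := 1) one_pos
  have h2 : ∀ᶠ m : ℕ in atTop, (Nat.primeCounting m : ℝ) ≤ ε * m := by
    have h3 := tendsto_natCast_atTop_atTop (R := ℝ) |>.eventually h1
    have h4 : Tendsto (fun m : ℕ => Real.log m) atTop atTop :=
      Real.tendsto_log_atTop.comp tendsto_natCast_atTop_atTop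
    filter_upwards [h3, h4.eventually_ge_atTop ((Real.log 4 + 1) / ε),
      h4.eventually_ge_atTop 1] with m hm1 hm2 hm3
    rw [Nat.floor_natCast] at hm1
    refine hm1.trans ?_
    rw [div_le_iff₀ hε] at hm2
    rw [div_le_iff₀ (by linarith)]
    have : (0 : ℝ) ≤ m := Nat.cast_nonneg m
    nlinarith
  obtain ⟨m0, hm0⟩ := eventually_atTop.mp h2
  refine ⟨m0 + 1, by positivity, fun m => ?_⟩
  by_cases h : m0 ≤ m
  · have := hm0 m h
    linarith [(Nat.cast_nonneg m0 : (0 : ℝ) ≤ m0)]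
  · push Not at h
    have h3 : Nat.primeCounting m ≤ m := by
      rw [← prs_card]
      refine (card_le_card (filter_subset _ _)).trans ?_
      simp
    have h4 : (Nat.primeCounting m : ℝ) ≤ m := by exact_mod_cast h3
    have h5 : (m : ℝ) ≤ m0 := by exact_mod_cast h.le
    have : (0 : ℝ) ≤ ε * m := by positivity
    linarith

lemma prs_succ (y : ℕ) : prs (y + 1) = if (y + 1).Prime then insert (y + 1) (prs y) else prs y := by
  ext q
  split_ifs with h
  · simp only [prs, mem_filter, mem_Icc, mem_insert]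
    constructor
    · rintro ⟨⟨h1, h2⟩, h3⟩
      by_cases h4 : q = y + 1
      · exact Or.inl h4
      · exact Or.inr ⟨⟨h1, by omega⟩, h3⟩
    · rintro (rfl | ⟨⟨h1, h2⟩, h3⟩)
      · exact ⟨⟨by omega, le_rfl⟩, h⟩
      · exact ⟨⟨h1, by omega⟩, h3⟩
  · simp only [prs, mem_filter, mem_Icc]
    constructor
    · rintro ⟨⟨h1, h2⟩, h3⟩
      by_cases h4 : q = y + 1
      · rw [h4] at h3; exact absurd h3 h
      · exact ⟨⟨h1, by omega⟩, h3⟩
    · rintro ⟨⟨h1, h2⟩, h3⟩
      exact ⟨⟨h1, by omega⟩, h3⟩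

lemma abel_pr (y : ℕ) : ∑ q ∈ prs y, 1 / (q : ℝ) = (Nat.primeCounting y : ℝ) / (y + 1) +
    ∑ m ∈ Icc 1 y, (Nat.primeCounting m : ℝ) / ((m : ℝ) * (m + 1)) := by
  induction y with
  | zero => simp [prs]
  | succ y ih =>
    rw [sum_Icc_succ_top (by omega)]
    have hc := prs_card (y + 1)
    have hc' := prs_card y
    rw [prs_succ] at hc ⊢
    have hy : ((y : ℝ) + 1) ≠ 0 := by positivity
    have hy2 : ((y : ℝ) + 1 + 1) ≠ 0 := by positivity
    split_ifs at hc ⊢ with h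
    · have hn : (y + 1) ∉ prs y := by
        simp only [prs, mem_filter, mem_Icc]; omega
      rw [card_insert_of_notMem hn, hc'] at hc
      rw [sum_insert hn, ih, ← hc]
      push_cast
      field_simp
      ring
    · rw [hc'] at hc
      rw [ih, ← hc]
      push_cast
      field_simp
      ring

lemma sum_pr (ε : ℝ) (hε : 0 < ε) : ∃ C : ℝ, 0 < C ∧ ∀ y : ℕ, 1 ≤ y →
    ∑ q ∈ prs y, 1 / (q : ℝ) ≤ ε * Real.log y + C := by
  obtain ⟨C, hC, h⟩ := pi_small ε hε
  refine ⟨2 * ε + 2 * C, by positivity, fun y hy => ?_⟩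
  rw [abel_pr]
  have hy0 : (0 : ℝ) < y := by exact_mod_cast hy
  have h1 : (Nat.primeCounting y : ℝ) / (y + 1) ≤ ε + C := by
    rw [div_le_iff₀ (by positivity)]
    have := h y
    nlinarith
  have h2 : ∀ m ∈ Icc 1 y, (Nat.primeCounting m : ℝ) / ((m : ℝ) * (m + 1)) ≤
      ε * (1 / (m : ℝ)) + C * (1 / (m : ℝ) - 1 / ((m : ℝ) + 1)) := by
    intro m hm
    rw [mem_Icc] at hm
    have hm0 : (0 : ℝ) < m := by exact_mod_cast (by omega : 0 < m)
    have e1 : ε * (1 / (m : ℝ)) + C * (1 / (m : ℝ) - 1 / ((m : ℝ) + 1)) =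
        (ε * (m + 1) + C) / ((m : ℝ) * (m + 1)) := by
      field_simp
      ring
    rw [e1]
    apply div_le_div_of_nonneg_right _ (by positivity)
    have := h m
    linarith
  have h3 := sum_le_sum h2
  rw [sum_add_distrib, ← mul_sum, ← mul_sum] at h3
  have h4 : ∑ m ∈ Icc 1 y, 1 / (m : ℝ) ≤ 1 + Real.log y := by
    have h5 := harmonic_le_one_add_log y
    rw [harmonic_eq_sum_Icc] at h5
    push_cast at h5
    simpa [one_div] using h5
  have h5 : ∀ y : ℕ, ∑ m ∈ Icc 1 y, (1 / (m : ℝ) - 1 / ((m : ℝ) + 1)) ≤ 1 := by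
    intro y
    have : ∑ m ∈ Icc 1 y, (1 / (m : ℝ) - 1 / ((m : ℝ) + 1)) = 1 - 1 / ((y : ℝ) + 1) := by
      induction y with
      | zero => simp
      | succ y ih =>
        rw [sum_Icc_succ_top (by omega), ih]
        push_cast
        ring
    rw [this]
    have : (0 : ℝ) ≤ 1 / ((y : ℝ) + 1) := by positivity
    linarith
  have h6 := mul_le_mul_of_nonneg_left h4 hε.le
  have h7 := mul_le_mul_of_nonneg_left (h5 y) hC.le
  linarith

/-- Euler products over the primes up to `y` -/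
lemma prodE (ε : ℝ) (hε : 0 < ε) : ∃ C : ℝ, 1 ≤ C ∧ ∀ y : ℕ, 1 ≤ y → ∀ s ⊆ prs y,
    ∀ g : ℕ → ℂ, (∀ q ∈ s, ‖g q‖ ≤ 1) → ‖∏ q ∈ s, (1 - g q / q)⁻¹‖ ≤ C * (y : ℝ) ^ ε := by
  obtain ⟨C, hC, h⟩ := sum_pr (ε / 2) (by positivity)
  refine ⟨Real.exp (2 * C), Real.one_le_exp (by positivity), fun y hy s hs g hg => ?_⟩
  have hy0 : (0 : ℝ) < y := by exact_mod_cast hy
  have h1 : ‖∏ q ∈ s, (1 - g q / q)⁻¹‖ ≤ ∏ q ∈ s, Real.exp (2 * (1 / (q : ℝ))) := by
    rw [norm_prod]
    apply Finset.prod_le_prod (fun q _ => norm_nonneg _)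
    intro q hq
    have hqp : q.Prime := (mem_filter.mp (hs hq)).2
    have hq2 : (2 : ℝ) ≤ q := by exact_mod_cast hqp.two_le
    have e1 : ‖g q / q‖ ≤ 1 / q := by
      rw [norm_div, Complex.norm_natCast]
      exact div_le_div_of_nonneg_right (hg q hq) (Nat.cast_nonneg _)
    have e2 : 1 - 1 / (q : ℝ) ≤ ‖1 - g q / q‖ := by
      have := norm_sub_norm_le (1 : ℂ) (g q / q)
      rw [norm_one] at this
      linarith
    have e3 : 1 / (q : ℝ) ≤ 1 / 2 := one_div_le_one_div_of_le (by norm_num) hq2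
    set t : ℝ := 1 / (q : ℝ) with ht
    have ht0 : 0 ≤ t := by positivity
    rw [norm_inv]
    have e4 : (‖1 - g q / q‖)⁻¹ ≤ (1 - t)⁻¹ := inv_anti₀ (by linarith) e2
    refine e4.trans ?_
    rw [inv_le_comm₀ (by linarith) (Real.exp_pos _), ← Real.exp_neg]
    have e5 := Real.add_one_le_exp (2 * t)
    have e6 : Real.exp (-(2 * t)) ≤ (1 + 2 * t)⁻¹ := by
      rw [Real.exp_neg]
      exact inv_anti₀ (by linarith) (by linarith)
    refine e6.trans ?_
    rw [inv_le_comm₀ (by linarith) (by linarith), inv_le_iff_one_le_mul₀ (by linarith)]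
    nlinarith
  refine h1.trans ?_
  rw [← Real.exp_sum, ← mul_sum]
  have h2 : ∑ q ∈ s, 1 / (q : ℝ) ≤ ε / 2 * Real.log y + C :=
    (sum_le_sum_of_subset_of_nonneg hs fun q _ _ => by positivity).trans (h y hy)
  rw [Real.rpow_def_of_pos hy0, ← Real.exp_add]
  apply Real.exp_le_exp.mpr
  nlinarith

lemma prod_prs (y : ℕ) (s : Finset ℕ) (hs : s ⊆ prs y) : ∏ q ∈ s, q ≤ 4 ^ y := by
  have h1 : ∏ q ∈ s, q ≤ primorial y := by
    unfold primorial
    apply Nat.le_of_dvd
    · apply prod_pos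
      intro q hq
      exact (mem_filter.mp hq).2.pos
    · apply prod_dvd_prod_of_subset
      intro q hq
      have := hs hq
      simp only [prs, mem_filter, mem_Icc] at this
      simp only [mem_filter, mem_range]
      exact ⟨by omega, this.2⟩
  exact h1.trans (primorial_le_four_pow y)

end Pool.Agent.T9h29.QA
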