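import Mathlib
import Pool.Agent.R361.AC.Main

set_option autoImplicit false

/-! # Quantitative preparations for the anti-concentration theorem -/

namespace Pool.Agent.T9h29.QA

open Finset Filter Topology
open Pool.Agent.R361.AC (rt rt_pow rt_surj norm_of_pow dist_ne central_sq)
open scoped ComplexConjugate

lemma norm_sq_one_sub (u : ℂ) (hu : ‖u‖ = 1) (q : ℝ) (hq : 0 < q) :
    ‖1 - u / q‖ ^ 2 = 1 - 2 * u.re / q + 1 / q ^ 2 := by
  have h2 : u.re ^ 2 + u.im ^ 2 = 1 := by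
    have := Complex.sq_norm u
    rw [hu, Complex.normSq_apply] at this
    nlinarith
  rw [Complex.sq_norm, Complex.normSq_apply]
  simp only [Complex.sub_re, Complex.one_re, Complex.sub_im, Complex.one_im,
    Complex.div_ofReal_re, Complex.div_ofReal_im]
  field_simp
  nlinarith

/-- the gap is at least a constant over `q` -/
lemma gapQ (h : ℕ) (hh : 0 < h) (ζ : ℂ) (hζ : IsPrimitiveRoot ζ (2 * h)) :
    ∃ c : ℝ, 0 < c ∧ c ≤ 1 ∧ ∀ q : ℕ, q.Prime → ∀ r : Fin h,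
      (1 + c / q) * (‖1 - rt ζ h (r, false) / q‖ ^ 2)⁻¹ ≤ (‖1 - rt ζ h (r, true) / q‖ ^ 2)⁻¹ ∨
      (1 + c / q) * (‖1 - rt ζ h (r, true) / q‖ ^ 2)⁻¹ ≤ (‖1 - rt ζ h (r, false) / q‖ ^ 2)⁻¹ := by
  have hn : ∀ z : Fin h × Bool, ‖rt ζ h z‖ = 1 := fun z =>
    norm_of_pow (2 * h) (by omega) _ (rt_pow ζ h hζ z)
  have hzh : ∀ r : Fin h, rt ζ h (r, false) ^ h = 1 := by
    intro r
    unfold rt
    rw [← pow_mul]
    simp only [Bool.false_eq_true, if_false, add_zero]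
    rw [show 2 * (r : ℕ) * h = 2 * h * r by ring, pow_mul, hζ.pow_eq_one, one_pow]
  have hζh : ζ ^ h = -1 := by
    have h3 : (ζ ^ h) ^ 2 = 1 := by rw [← pow_mul, mul_comm, hζ.pow_eq_one]
    rcases mul_self_eq_one_iff.mp ((sq _).symm.trans h3) with h4 | h4
    · exfalso
      have := (hζ.pow_eq_one_iff_dvd h).mp h4
      have := Nat.le_of_dvd hh this
      omega
    · exact h4
  have hwh : ∀ r : Fin h, rt ζ h (r, true) ^ h = -1 := by
    intro r
    unfold rt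
    rw [← pow_mul]
    simp only [if_true]
    rw [show (2 * (r : ℕ) + 1) * h = 2 * h * r + h by ring, pow_add, pow_mul, hζ.pow_eq_one,
      one_pow, one_mul, hζh]
  have hre : ∀ r : Fin h, (rt ζ h (r, false)).re ≠ (rt ζ h (r, true)).re := by
    intro r heq
    have h1 := dist_ne h hh _ _ (hzh r) (hwh r) 1 one_pos
    rw [norm_sq_one_sub _ (hn _) 1 one_pos, norm_sq_one_sub _ (hn _) 1 one_pos, heq] at h1
    exact h1 rfl
  have hNE : (univ : Finset (Fin h)).Nonempty := ⟨⟨0, hh⟩, mem_univ _⟩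
  set f : Fin h → ℝ := fun r => |(rt ζ h (r, false)).re - (rt ζ h (r, true)).re| with hf
  obtain ⟨r0, _, hr0⟩ := exists_min_image univ f hNE
  set c1 := f r0 with hc1
  have hc10 : 0 < c1 := by
    rw [hc1, hf]
    exact abs_pos.mpr (sub_ne_zero.mpr (hre r0))
  refine ⟨min 1 (c1 / 2), lt_min one_pos (by positivity), min_le_left _ _, ?_⟩
  intro q hq r
  set c := min 1 (c1 / 2) with hc
  have hc0 : 0 < c := lt_min one_pos (by positivity)
  have hcc : c ≤ c1 / 2 := min_le_right _ _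
  have hq0 : (0 : ℝ) < q := by exact_mod_cast hq.pos
  have hq2 : (2 : ℝ) ≤ q := by exact_mod_cast hq.two_le
  have hc1r : c1 ≤ |(rt ζ h (r, false)).re - (rt ζ h (r, true)).re| := hr0 r (mem_univ r)
  have key : ∀ z w : ℂ, ‖z‖ = 1 → ‖w‖ = 1 → c1 ≤ w.re - z.re →
      (1 + c / q) * (‖1 - z / q‖ ^ 2)⁻¹ ≤ (‖1 - w / q‖ ^ 2)⁻¹ := by
    intro z w hz hw hzw
    have hzc : ((q : ℕ) : ℂ) = (((q : ℕ) : ℝ) : ℂ) := by push_cast; rfl
    rw [hzc, norm_sq_one_sub z hz q hq0, norm_sq_one_sub w hw q hq0]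
    have hwr : |w.re| ≤ 1 := by rw [← hw]; exact Complex.abs_re_le_norm w
    have hzr : |z.re| ≤ 1 := by rw [← hz]; exact Complex.abs_re_le_norm z
    have hw1 := abs_le.mp hwr
    have hz1 := abs_le.mp hzr
    have hpos : ∀ t : ℝ, t ≤ 1 → 0 < 1 - 2 * t / q + 1 / (q : ℝ) ^ 2 := by
      intro t ht
      have : 1 - 2 * t / q + 1 / (q : ℝ) ^ 2 = ((q : ℝ) ^ 2 - 2 * t * q + 1) / (q : ℝ) ^ 2 := by
        field_simp
      rw [this]
      apply div_pos _ (by positivity)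
      nlinarith
    have hB := hpos w.re hw1.2
    have hA := hpos z.re hz1.2
    rw [← div_eq_mul_inv, ← one_div, div_le_div_iff₀ hA hB, one_mul]
    have hB4 : 1 - 2 * w.re / q + 1 / (q : ℝ) ^ 2 ≤ 4 := by
      have e1 : -(2 * w.re / q) ≤ 1 := by
        rw [neg_le, ← neg_le_neg_iff]
        have : 2 * w.re / (q : ℝ) ≥ -1 := by
          rw [ge_iff_le, le_div_iff₀ hq0]; nlinarith
        linarith
      have e2 : 1 / (q : ℝ) ^ 2 ≤ 1 := by
        rw [div_le_one (by positivity)]; nlinarith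
      linarith
    have e3 : c / q * (1 - 2 * w.re / q + 1 / (q : ℝ) ^ 2) ≤ c / q * 4 :=
      mul_le_mul_of_nonneg_left hB4 (by positivity)
    have e4 : c / q * 4 ≤ 2 * (w.re - z.re) / q := by
      rw [div_mul_eq_mul_div]
      apply div_le_div_of_nonneg_right _ hq0.le
      linarith
    have e5 : 2 * (w.re - z.re) / q = 2 * w.re / q - 2 * z.re / q := by ring
    linarith
  rcases le_total (rt ζ h (r, false)).re (rt ζ h (r, true)).re with h1 | h1
  · left
    apply key _ _ (hn _) (hn _)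
    rwa [abs_of_nonpos (by linarith), neg_sub] at hc1r
  · right
    apply key _ _ (hn _) (hn _)
    rwa [abs_of_nonneg (by linarith)] at hc1r

/-- the tail of `∑ τ(m²)/m²` -/
lemma tau_tailQ (ε : ℝ) (hε : 0 < ε) (hε1 : ε < 1) : ∃ C : ℝ, 0 < C ∧ ∀ y N : ℕ, 1 ≤ y →
    ∑ m ∈ Ioc y N, ((m * m).divisors.card : ℝ) / ((m : ℝ) * m) ≤ C * (y : ℝ) ^ (-(1 - ε)) := by
  obtain ⟨C1, hC1, hτ⟩ := Pool.Agent.H510R2.divisor_bound (ε / 4) (by positivity)
  have hs : Summable (fun m : ℕ => 1 / (m : ℝ) ^ (1 + ε / 2)) :=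
    Real.summable_one_div_nat_rpow.mpr (by linarith)
  set D := ∑' m : ℕ, 1 / (m : ℝ) ^ (1 + ε / 2) with hD
  have hD0 : 0 ≤ D := tsum_nonneg fun m => by positivity
  refine ⟨C1 * (D + 1), by positivity, fun y N hy => ?_⟩
  have hy0 : (0 : ℝ) < y := by exact_mod_cast hy
  have h1 : ∀ m ∈ Ioc y N, ((m * m).divisors.card : ℝ) / ((m : ℝ) * m) ≤
      C1 * (y : ℝ) ^ (-(1 - ε)) * (1 / (m : ℝ) ^ (1 + ε / 2)) := by
    intro m hm
    rw [mem_Ioc] at hm
    have hm0 : (0 : ℝ) < m := by exact_mod_cast (by omega : 0 < m)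
    have h2 := hτ (m * m) (Nat.mul_pos (by omega) (by omega))
    push_cast at h2
    have h3 : ((m : ℝ) * m) ^ (ε / 4) = (m : ℝ) ^ (ε / 2) := by
      rw [← sq, ← Real.rpow_natCast, ← Real.rpow_mul hm0.le]
      congr 1; push_cast; ring
    rw [h3] at h2
    have h4 : (m : ℝ) ^ (-(1 - ε)) ≤ (y : ℝ) ^ (-(1 - ε)) := by
      apply Real.rpow_le_rpow_of_nonpos hy0 _ (by linarith)
      exact_mod_cast hm.1.le
    have h5 : (m : ℝ) ^ (ε / 2) / ((m : ℝ) * m) =
        (m : ℝ) ^ (-(1 - ε)) * (1 / (m : ℝ) ^ (1 + ε / 2)) := by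
      rw [one_div, ← Real.rpow_neg hm0.le, ← Real.rpow_add hm0]
      have h6 : ((m : ℝ) * m) = (m : ℝ) ^ (2 : ℝ) := by
        rw [show (2 : ℝ) = ((2 : ℕ) : ℝ) by norm_num, Real.rpow_natCast]; ring
      rw [h6, ← Real.rpow_sub hm0]
      congr 1; ring
    calc ((m * m).divisors.card : ℝ) / ((m : ℝ) * m) ≤
          C1 * (m : ℝ) ^ (ε / 2) / ((m : ℝ) * m) := by gcongr
      _ = C1 * ((m : ℝ) ^ (-(1 - ε)) * (1 / (m : ℝ) ^ (1 + ε / 2))) := by rw [mul_div_assoc, h5]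
      _ ≤ C1 * ((y : ℝ) ^ (-(1 - ε)) * (1 / (m : ℝ) ^ (1 + ε / 2))) := by
          gcongr
      _ = _ := by ring
  refine (sum_le_sum h1).trans ?_
  rw [← mul_sum]
  have h2 : ∑ m ∈ Ioc y N, 1 / (m : ℝ) ^ (1 + ε / 2) ≤ D + 1 := by
    have := hs.sum_le_tsum (Ioc y N) (fun m _ => by positivity)
    linarith
  calc C1 * (y : ℝ) ^ (-(1 - ε)) * ∑ m ∈ Ioc y N, 1 / (m : ℝ) ^ (1 + ε / 2) ≤
        C1 * (y : ℝ) ^ (-(1 - ε)) * (D + 1) := by gcongr
    _ = _ := by ring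

open Classical in
/-- smooth parts and Euler products, with an explicit error -/
theorem smoothQ (s : Finset ℕ) (hs : ∀ p ∈ s, p.Prime) (N : ℕ) (hN : 1 ≤ N) (f : ℕ →* ℂ)
    (hf : ∀ n, ‖f n‖ ≤ 1 / (n : ℝ)) :
      ‖∑ n ∈ (Icc 1 N).filter (fun n => n ∈ Nat.factoredNumbers s), f n -
        ∏ p ∈ s, (1 - f p)⁻¹‖ ≤ (N : ℝ) ^ (-(1 / 2) : ℝ) * 4 ^ #s := by
  set F := Nat.factoredNumbers s with hF
  let g0 : ℕ →* ℝ :=
    { toFun := fun n => (n : ℝ) ^ (-(1 / 2) : ℝ)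
      map_one' := by simp
      map_mul' := fun a b => by
        push_cast; rw [Real.mul_rpow (Nat.cast_nonneg _) (Nat.cast_nonneg _)] }
  have hg0' : ∀ n : ℕ, g0 n = (n : ℝ) ^ (-(1 / 2) : ℝ) := fun n => rfl
  have hb : ∀ {p : ℕ}, p.Prime → (p : ℝ) ^ (-(1 / 2) : ℝ) ≤ 3 / 4 := by
    intro p hp
    have h2 : (2 : ℝ) ≤ p := by exact_mod_cast hp.two_le
    rw [Real.rpow_neg (by linarith), ← Real.sqrt_eq_rpow]
    rw [inv_le_comm₀ (Real.sqrt_pos.mpr (by linarith)) (by norm_num)]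
    apply Real.le_sqrt_of_sq_le
    norm_num
    linarith
  have hg0 : ∀ {p : ℕ}, p.Prime → ‖g0 p‖ < 1 := by
    intro p hp
    rw [hg0', Real.norm_eq_abs, abs_of_nonneg (by positivity)]
    exact (hb hp).trans_lt (by norm_num)
  obtain ⟨hg, hgS⟩ := EulerProduct.summable_and_hasSum_factoredNumbers_prod_filter_prime_geometric
    (f := g0) hg0 s
  have hsf : (s.filter Nat.Prime) = s := filter_true_of_mem hs
  rw [hsf] at hgS
  set g : ℕ → ℝ := Set.indicator F (fun n => (n : ℝ) ^ (-(1 / 2) : ℝ)) with hgdef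
  have hgsum : HasSum g (∏ p ∈ s, (1 - g0 p)⁻¹) := hasSum_subtype_iff_indicator.mp hgS
  have hgprod : ∏ p ∈ s, (1 - g0 p)⁻¹ ≤ 4 ^ #s := by
    rw [← prod_const]
    apply Finset.prod_le_prod
    · intro p hp
      rw [inv_nonneg, hg0']
      linarith [hb (hs p hp)]
    · intro p hp
      rw [hg0', inv_le_comm₀ (by linarith [hb (hs p hp)]) (by norm_num)]
      linarith [hb (hs p hp)]
  have hf1 : ∀ {p : ℕ}, p.Prime → ‖f p‖ < 1 := by
    intro p hp
    have h2 : (1 : ℝ) < p := by exact_mod_cast hp.one_lt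
    refine (hf p).trans_lt ?_
    rw [one_div]
    exact inv_lt_one_of_one_lt₀ h2
  have h1 := (EulerProduct.summable_and_hasSum_factoredNumbers_prod_filter_prime_geometric
    (f := f) hf1 s).2
  rw [hsf] at h1
  have h2 : HasSum (Set.indicator F (fun n => f n)) (∏ p ∈ s, (1 - f p)⁻¹) :=
    hasSum_subtype_iff_indicator.mp h1
  have h3 : ∑ n ∈ (Icc 1 N).filter (fun n => n ∈ F), f n =
      ∑ n ∈ range (N + 1), Set.indicator F (fun n => f n) n := by
    rw [sum_filter]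
    have : range (N + 1) = insert 0 (Icc 1 N) := by
      ext n; simp; omega
    rw [this, sum_insert (by simp)]
    have h0 : Set.indicator F (fun n => f n) 0 = 0 := by
      apply Set.indicator_of_notMem
      intro h
      exact h.1 rfl
    rw [h0, zero_add]
    apply sum_congr rfl
    intro n _
    rw [Set.indicator_apply]
  rw [h3]
  have h4 := h2.summable.sum_add_tsum_nat_add (N + 1)
  rw [h2.tsum_eq] at h4
  have h5 : ∑ n ∈ range (N + 1), Set.indicator F (fun n => f n) n - ∏ p ∈ s, (1 - f p)⁻¹ =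
      - ∑' i, Set.indicator F (fun n => f n) (i + (N + 1)) := by
    rw [← h4]; ring
  rw [h5, norm_neg]
  have hNpos : (0 : ℝ) < N := by exact_mod_cast hN
  have hgs' : Summable (fun i => (N : ℝ) ^ (-(1 / 2) : ℝ) * g (i + (N + 1))) :=
    ((summable_nat_add_iff (N + 1)).mpr hgsum.summable).mul_left _
  have h6 : ‖∑' i, Set.indicator F (fun n => f n) (i + (N + 1))‖ ≤
      ∑' i, (N : ℝ) ^ (-(1 / 2) : ℝ) * g (i + (N + 1)) := by
    apply tsum_of_norm_bounded hgs'.hasSum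
    intro i
    rw [hgdef, Set.indicator_apply, Set.indicator_apply]
    split_ifs
    · refine (hf _).trans ?_
      set m : ℕ := i + (N + 1) with hm
      have hm0 : (0 : ℝ) < m := by exact_mod_cast (by omega : 0 < m)
      have hmN : (N : ℝ) ≤ m := by exact_mod_cast (by omega : N ≤ m)
      have e1 : 1 / (m : ℝ) = (m : ℝ) ^ (-(1 / 2) : ℝ) * (m : ℝ) ^ (-(1 / 2) : ℝ) := by
        rw [← Real.rpow_add hm0, one_div, ← Real.rpow_neg_one]
        norm_num
      rw [e1]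
      apply mul_le_mul_of_nonneg_right _ (by positivity)
      exact Real.rpow_le_rpow_of_nonpos hNpos hmN (by norm_num)
    · simp
  refine h6.trans ?_
  rw [tsum_mul_left]
  apply mul_le_mul_of_nonneg_left _ (by positivity)
  refine le_trans ?_ hgprod
  rw [← hgsum.tsum_eq]
  have h7 := hgsum.summable.sum_add_tsum_nat_add (N + 1)
  have h8 : 0 ≤ ∑ i ∈ range (N + 1), g i := by
    apply sum_nonneg
    intro i _
    rw [hgdef, Set.indicator_apply]
    split_ifs <;> positivity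
  linarith

/-- the central binomial coefficient -/
lemma binQ (n : ℕ) : (((2 * n).choose n : ℕ) : ℝ) ≤ 2 ^ (2 * n) / Real.sqrt (2 * n + 1) := by
  have h1 := central_sq n
  rw [Nat.centralBinom_eq_two_mul_choose] at h1
  have h2 : (((2 * n).choose n : ℕ) : ℝ) ^ 2 * (2 * n + 1) ≤ 16 ^ n := by exact_mod_cast h1
  have h0 : (0 : ℝ) < 2 * n + 1 := by positivity
  rw [le_div_iff₀ (Real.sqrt_pos.mpr h0)]
  apply le_of_sq_le_sq _ (by positivity)
  rw [mul_pow, Real.sq_sqrt h0.le, ← pow_mul, show 2 * n * 2 = 4 * n by ring, pow_mul]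
  norm_num
  exact h2

end Pool.Agent.T9h29.QA
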