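import Mathlib
import Pool.Agent.T9h29.QA.Pre
import Pool.Agent.T9h29.QA.Pr

set_option autoImplicit false

/-! # The anti-concentration estimate with explicit parameters -/

namespace Pool.Agent.T9h29.QA

open Finset Filter Topology
open Pool.Agent.R361.AC (rt rt_pow rt_surj norm_of_pow pattern_count ms_bound cheb norm_le_one
  zero_of_not_coprime sum_biUnion_le')
open scoped ComplexConjugate

open Classical in
theorem coreQ {ι : Type*} (h : ℕ) (hh : 0 < h) (ζ : ℂ) (hζ : IsPrimitiveRoot ζ (2 * h))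
    (Q : ℕ) (Ψ : ι → ℕ →*₀ ℂ)
    (hΨ : ∀ a q, q.Prime → Ψ a q = 0 ∨ (Ψ a q) ^ (2 * h) = 1)
    (hΨQ : ∀ a q, q.Prime → q ∣ Q → Ψ a q = 0)
    (A : Finset ι) (W : ι → ℝ) (hW : ∀ a, 0 ≤ W a)
    (N : ℕ) (hN : 1 ≤ N) (e : ℝ) (he0 : 0 ≤ e)
    (hcorr : ∀ n n', 1 ≤ n → n ≤ N → 1 ≤ n' → n' ≤ N → n.Coprime Q →
      n'.Coprime Q → (∃ q, q.Prime ∧ ¬ n.factorization q ≡ n'.factorization q [MOD 2 * h]) →
      ‖∑ a ∈ A, (W a : ℂ) * Ψ a n * conj (Ψ a n')‖ ≤ e)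
    (T : Set ℝ) (t0 : ℝ) (ht0 : 0 < t0) (hT0 : ∀ t ∈ T, t0 ≤ t)
    (c : ℝ) (hc0 : 0 < c)
    (hgap : ∀ q : ℕ, q.Prime → ∀ r : Fin h,
      (1 + c / q) * (‖1 - rt ζ h (r, false) / q‖ ^ 2)⁻¹ ≤ (‖1 - rt ζ h (r, true) / q‖ ^ 2)⁻¹ ∨
      (1 + c / q) * (‖1 - rt ζ h (r, true) / q‖ ^ 2)⁻¹ ≤ (‖1 - rt ζ h (r, false) / q‖ ^ 2)⁻¹)
    (y w : ℕ) (hw : 1 ≤ w) (s : Finset ℕ) (hs : s = (prs y).filter (fun q => ¬ q ∣ Q))
    (K : Finset ℕ) (hKs : K ⊆ s) (n : ℕ) (hKc : #K = 2 * n) (hKw : ∀ q ∈ K, q ≤ w)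
    (hNs : ∏ q ∈ s, q ^ (2 * h) ≤ N)
    (RE : ℝ) (hRE : 1 ≤ RE) (hE : ∀ a, ‖∏ q ∈ s, (1 - Ψ a q / q)⁻¹‖ ≤ RE)
    (θ0 : ℝ) (hθ0 : θ0 = (c / w) / (4 * (1 + c / w)))
    (η η' : ℝ) (hη1 : η ≤ 1) (hη2 : η ≤ θ0 * t0 / 2) (hη'0 : 0 < η') (hη'1 : η' ≤ 1)
    (hη'2 : η' * (2 * RE + 1) ≤ θ0 * t0 / 2)
    (TR : Finset ℝ) (hTR : T ∩ Set.Iic ((RE + 1) ^ 2 + 1) ⊆ TR)
    (hsm : (N : ℝ) ^ (-(1 / 2) : ℝ) * 4 ^ #s ≤ η' / 2)
    (τy : ℝ) (hτy : ∑ m ∈ Ioc y N, ((m * m).divisors.card : ℝ) / ((m : ℝ) * m) ≤ τy) :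
    ∑ a ∈ A.filter (fun a => (∀ q, q.Prime → ¬ q ∣ Q → q ≤ y → Ψ a q ≠ 0) ∧
        ∃ t ∈ T, |‖∑ n ∈ Icc 1 N, Ψ a n / n‖ ^ 2 - t| ≤ η), W a ≤
      4 / η' ^ 2 * (τy * ∑ a ∈ A, W a + (1 + Real.log N) ^ 2 * e) +
      #TR * (1 / Real.sqrt (2 * n + 1) * ((∑ a ∈ A, W a) + (2 * h : ℝ) ^ #s * e)) := by
  have hwpos : (0 : ℝ) < w := by exact_mod_cast hw
  set δ0 : ℝ := c / w with hδ0d
  have hδ0 : 0 < δ0 := by positivity
  have hθ00 : 0 < θ0 := by rw [hθ0]; positivity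
  have hθ0e : θ0 * (4 * (1 + δ0)) = δ0 := by rw [hθ0]; field_simp
  have hθ01 : θ0 ≤ 1 / 4 := by
    rw [hθ0, div_le_iff₀ (by positivity)]; linarith
  have hθδ : 1 + θ0 < (1 + δ0) * (1 - θ0) := by nlinarith
  have hsp : ∀ q ∈ s, q.Prime := by
    intro q hq
    rw [hs, mem_filter] at hq
    exact (mem_filter.mp hq.1).2
  have hsQ : ∀ q ∈ s, ¬ q ∣ Q := by
    intro q hq
    rw [hs, mem_filter] at hq
    exact hq.2
  have hgap' : ∀ q ∈ K, ∀ r : Fin h,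
      (1 + δ0) * (‖1 - rt ζ h (r, false) / q‖ ^ 2)⁻¹ ≤ (‖1 - rt ζ h (r, true) / q‖ ^ 2)⁻¹ ∨
      (1 + δ0) * (‖1 - rt ζ h (r, true) / q‖ ^ 2)⁻¹ ≤ (‖1 - rt ζ h (r, false) / q‖ ^ 2)⁻¹ := by
    intro q hq r
    have hqp := hsp q (hKs hq)
    have hq0 : (0 : ℝ) < q := by exact_mod_cast hqp.pos
    have hqw : (q : ℝ) ≤ w := by exact_mod_cast hKw q hq
    have h1 : 1 + δ0 ≤ 1 + c / q := by
      have : c / (w : ℝ) ≤ c / q := div_le_div_of_nonneg_left hc0.le hq0 hqw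
      linarith
    rcases hgap q hqp r with h2 | h2
    · left
      refine le_trans ?_ h2
      exact mul_le_mul_of_nonneg_right h1 (by positivity)
    · right
      refine le_trans ?_ h2
      exact mul_le_mul_of_nonneg_right h1 (by positivity)
  set WT := ∑ a ∈ A, W a with hWT
  have hWT0 : 0 ≤ WT := sum_nonneg fun a _ => hW a
  -- the sets
  set D : ι → ℂ := fun a => ∑ n ∈ Icc 1 N, Ψ a n / n with hD
  set E : ι → ℂ := fun a => ∏ q ∈ s, (1 - Ψ a q / q)⁻¹ with hEd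
  set S0 := (Icc 1 N).filter (fun n => n.Coprime Q) with hS0
  set S1 := S0.filter (fun n => n ∉ Nat.factoredNumbers s) with hS1
  set V : ι → ℂ := fun a => ∑ n ∈ S1, Ψ a n / n with hV
  have hz : ∀ a n, ¬ n.Coprime Q → Ψ a n = 0 := fun a n hn' =>
    zero_of_not_coprime (Ψ a) Q (hΨQ a) n hn'
  have hDS0 : ∀ a, D a = ∑ n ∈ S0, Ψ a n / n := by
    intro a
    simp only [hD, hS0]
    rw [sum_filter]
    apply sum_congr rfl
    intro m _
    split_ifs with h1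
    · rfl
    · rw [hz a m h1, zero_div]
  have hDV : ∀ a, D a = (∑ n ∈ (Icc 1 N).filter (fun n => n ∈ Nat.factoredNumbers s),
      Ψ a n / n) + V a := by
    intro a
    rw [hDS0, hV]
    simp only
    rw [← sum_filter_add_sum_filter_not S0 (fun n => n ∈ Nat.factoredNumbers s)]
    congr 1
    simp only [hS0]
    rw [filter_filter, sum_filter, sum_filter]
    apply sum_congr rfl
    intro m _
    by_cases h1 : m.Coprime Q
    · by_cases h2 : m ∈ Nat.factoredNumbers s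
      · rw [if_pos ⟨h1, h2⟩, if_pos h2]
      · rw [if_neg (fun h => h2 h.2), if_neg h2]
    · rw [hz a m h1, zero_div, ite_self, ite_self]
  have hDE : ∀ a, ‖D a - E a‖ ≤ ‖V a‖ + η' / 2 := by
    intro a
    let f : ℕ →* ℂ :=
      { toFun := fun n => Ψ a n / n
        map_one' := by simp
        map_mul' := fun m n => by push_cast; rw [map_mul]; rw [mul_div_mul_comm] }
    have h1 := smoothQ s hsp N hN f (by
      intro m
      change ‖Ψ a m / m‖ ≤ _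
      rw [norm_div, Complex.norm_natCast]
      exact div_le_div_of_nonneg_right (norm_le_one (Ψ a) (2 * h) (by omega) (hΨ a) m)
        (Nat.cast_nonneg _))
    have h1' := h1.trans hsm
    have h2 : D a - E a = V a + ((∑ n ∈ (Icc 1 N).filter
        (fun n => n ∈ Nat.factoredNumbers s), f n) - ∏ p ∈ s, (1 - f p)⁻¹) := by
      rw [hDV]
      change _ = V a + ((∑ n ∈ (Icc 1 N).filter
        (fun n => n ∈ Nat.factoredNumbers s), Ψ a n / n) - ∏ p ∈ s, (1 - Ψ a p / p)⁻¹)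
      ring
    rw [h2]
    exact (norm_add_le _ _).trans (add_le_add le_rfl h1')
  -- mean square
  have hms1 : ∑ a ∈ A, W a * ‖V a‖ ^ 2 ≤ τy * WT + (1 + Real.log N) ^ 2 * e := by
    have h1 := ms_bound h hh Q Ψ hΨ A W hW N e he0 hcorr S1
      ((filter_subset _ _).trans (filter_subset _ _))
      (fun n hn' => (mem_filter.mp (mem_filter.mp hn').1).2) y ?_
    · refine h1.trans ?_
      have h2 := mul_le_mul_of_nonneg_right hτy hWT0
      linarith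
    · intro m hm k hk hk0
      rw [hS1, mem_filter, hS0, mem_filter, mem_Icc] at hm
      obtain ⟨⟨hm1, hm2⟩, hm3⟩ := hm
      rw [Nat.mem_factoredNumbers'] at hm3
      push Not at hm3
      obtain ⟨p, hp, hpm, hps⟩ := hm3
      have hpy : y < p := by
        by_contra hcon
        push Not at hcon
        apply hps
        rw [hs, mem_filter, prs, mem_filter, mem_Icc]
        refine ⟨⟨⟨hp.one_le, hcon⟩, hp⟩, fun hpQ => ?_⟩
        exact Nat.Prime.not_coprime_iff_dvd.mpr ⟨p, hp, hpm, hpQ⟩ hm2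
      have h4 : p ∣ k * k := hpm.trans hk
      have h5 : p ∣ k := by
        rcases hp.dvd_mul.mp h4 with h | h <;> exact h
      exact lt_of_lt_of_le hpy (Nat.le_of_dvd hk0 h5)
  -- the exceptional sets
  set B2 := A.filter (fun a => (η' / 2) ^ 2 ≤ ‖V a‖ ^ 2) with hB2
  set B3 : ℝ → Finset ι := fun t => A.filter (fun a => (∀ q ∈ s, Ψ a q ≠ 0) ∧
      (1 - θ0) * t ≤ ‖E a‖ ^ 2 ∧ ‖E a‖ ^ 2 < (1 + δ0) * ((1 - θ0) * t)) with hB3
  have hb2 : ∑ a ∈ B2, W a ≤ 4 / η' ^ 2 * (τy * WT + (1 + Real.log N) ^ 2 * e) := by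
    have h1 := cheb A W hW (fun a => ‖V a‖ ^ 2) (fun a => sq_nonneg _)
      ((η' / 2) ^ 2) B2 (filter_subset _ _) (fun a ha => (mem_filter.mp ha).2)
    have h2 := h1.trans hms1
    have h3 : (0 : ℝ) < (η' / 2) ^ 2 := by positivity
    rw [← mul_le_mul_iff_right₀ h3]
    refine h2.trans (le_of_eq ?_)
    field_simp
    norm_num
  have hb3 : ∀ t, ∑ a ∈ B3 t, W a ≤ 1 / Real.sqrt (2 * n + 1) * (WT + (2 * h : ℝ) ^ #s * e) := by
    intro t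
    have h1 := pattern_count h hh ζ hζ Q Ψ hΨ A W hW N e he0 hcorr
      s hsp hsQ hNs K hKs δ0 hδ0 hgap' ((1 - θ0) * t)
    rw [hKc] at h1
    have h2 : 2 * n / 2 = n := by omega
    rw [h2] at h1
    have h3 : 0 ≤ WT + (2 * h : ℝ) ^ #s * e := by positivity
    have h4 : (0 : ℝ) < 2 ^ (2 * n) := by positivity
    rw [← mul_le_mul_iff_left₀ h4]
    calc (∑ a ∈ B3 t, W a) * 2 ^ (2 * n) ≤ ((2 * n).choose n : ℝ) *
          (WT + (2 * h : ℝ) ^ #s * e) := h1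
      _ ≤ (2 ^ (2 * n) / Real.sqrt (2 * n + 1)) * (WT + (2 * h : ℝ) ^ #s * e) :=
          mul_le_mul_of_nonneg_right (binQ n) h3
      _ = _ := by ring
  have hsub : A.filter (fun a => (∀ q, q.Prime → ¬ q ∣ Q → q ≤ y → Ψ a q ≠ 0) ∧
        ∃ t ∈ T, |‖D a‖ ^ 2 - t| ≤ η) ⊆ B2 ∪ TR.biUnion B3 := by
    intro a ha
    rw [mem_filter] at ha
    obtain ⟨haA, ha1, t, htT, ht⟩ := ha
    rw [mem_union]
    by_cases h2 : (η' / 2) ^ 2 ≤ ‖V a‖ ^ 2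
    · exact Or.inl (mem_filter.mpr ⟨haA, h2⟩)
    right
    push Not at h2
    have hV1 : ‖V a‖ < η' / 2 := lt_of_pow_lt_pow_left₀ 2 (by positivity) h2
    have hDE1 : ‖D a - E a‖ ≤ η' := by linarith [hDE a]
    have hE1 : |‖D a‖ - ‖E a‖| ≤ η' := (abs_norm_sub_norm_le _ _).trans hDE1
    have hE2 := abs_le.mp hE1
    have hER : ‖E a‖ ≤ RE := hE a
    have hDR : ‖D a‖ ≤ RE + 1 := by linarith
    have htR : t ∈ TR := by
      apply hTR
      refine ⟨htT, ?_⟩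
      rw [Set.mem_Iic]
      have h5 := (abs_le.mp ht).1
      have h6 : ‖D a‖ ^ 2 ≤ (RE + 1) ^ 2 := pow_le_pow_left₀ (norm_nonneg _) hDR 2
      linarith
    have hkey : |‖E a‖ ^ 2 - t| ≤ θ0 * t0 := by
      have h5 : |‖E a‖ ^ 2 - ‖D a‖ ^ 2| ≤ η' * (2 * RE + 1) := by
        have : ‖E a‖ ^ 2 - ‖D a‖ ^ 2 = (‖E a‖ - ‖D a‖) * (‖E a‖ + ‖D a‖) := by ring
        rw [this, abs_mul]
        apply mul_le_mul
        · rw [abs_sub_comm]; exact hE1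
        · rw [abs_of_nonneg (by positivity)]
          linarith
        · exact abs_nonneg _
        · exact hη'0.le
      have h6 : ‖E a‖ ^ 2 - t = (‖E a‖ ^ 2 - ‖D a‖ ^ 2) + (‖D a‖ ^ 2 - t) := by ring
      rw [h6]
      refine (abs_add_le _ _).trans ?_
      linarith
    have ht0t := hT0 t htT
    have htp : 0 < t := by linarith
    have hkey2 := abs_le.mp hkey
    have hk3 : θ0 * t0 ≤ θ0 * t := mul_le_mul_of_nonneg_left ht0t hθ00.le
    have hk4 : (1 + θ0) * t < (1 + δ0) * (1 - θ0) * t := mul_lt_mul_of_pos_right hθδ htp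
    rw [mem_biUnion]
    refine ⟨t, htR, ?_⟩
    rw [hB3, mem_filter]
    refine ⟨haA, ?_, ?_, ?_⟩
    · intro q hq
      have hq' := hq
      rw [hs, mem_filter, prs, mem_filter, mem_Icc] at hq'
      exact ha1 q hq'.1.2 hq'.2 hq'.1.1.2
    · have : (1 - θ0) * t = t - θ0 * t := by ring
      rw [this]
      linarith [hkey2.1]
    · have e1 : (1 + θ0) * t = t + θ0 * t := by ring
      have e2 : (1 + δ0) * ((1 - θ0) * t) = (1 + δ0) * (1 - θ0) * t := by ring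
      rw [e2]
      rw [e1] at hk4
      linarith [hkey2.2]
  have hfinal : ∑ a ∈ A.filter (fun a => (∀ q, q.Prime → ¬ q ∣ Q → q ≤ y → Ψ a q ≠ 0) ∧
        ∃ t ∈ T, |‖D a‖ ^ 2 - t| ≤ η), W a ≤
      ∑ a ∈ B2, W a + ∑ t ∈ TR, ∑ a ∈ B3 t, W a := by
    refine (sum_le_sum_of_subset_of_nonneg hsub fun a _ _ => hW a).trans ?_
    have h1 := sum_union_inter (s₁ := B2) (s₂ := TR.biUnion B3) (f := W)
    have h3 : 0 ≤ ∑ b ∈ B2 ∩ TR.biUnion B3, W b := sum_nonneg fun b _ => hW b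
    have h5 := sum_biUnion_le' TR B3 W hW
    linarith
  have hlast : ∑ t ∈ TR, ∑ a ∈ B3 t, W a ≤
      #TR * (1 / Real.sqrt (2 * n + 1) * (WT + (2 * h : ℝ) ^ #s * e)) := by
    rw [← nsmul_eq_mul, ← sum_const]
    exact sum_le_sum fun t _ => hb3 t
  exact hfinal.trans (add_le_add hb2 hlast)

end Pool.Agent.T9h29.QA
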