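import Mathlib
import Pool.Agent.T9h29.QA.Core
import Pool.Agent.R361.AC.Count

set_option autoImplicit false

/-! # The anti-concentration estimate with a power of the logarithm -/

namespace Pool.Agent.T9h29.QA

open Finset Filter Topology
open Pool.Agent.R361.AC (rt tendsto_log_nat norm_le_one)
open scoped ComplexConjugate

/-- the length of the Euler products -/
noncomputable def yf (h x : ℕ) : ℕ := ⌊Real.log x / (400 * h)⌋₊

/-- the length of the Littlewood-Offord block -/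
noncomputable def wf (x : ℕ) : ℕ := ⌊(Real.log x) ^ (2 / 5 : ℝ)⌋₊

lemma log_rpow_le (a c s : ℝ) (hs : 0 < s) :
    ∀ᶠ x : ℕ in atTop, c * (Real.log x) ^ a ≤ (x : ℝ) ^ s := by
  have e1 : ∀ᶠ x : ℕ in atTop, 1 ≤ Real.log x := tendsto_log_nat.eventually_ge_atTop 1
  have h1 := (isLittleO_log_rpow_rpow_atTop a hs).bound
    (show (0 : ℝ) < 1 / (|c| + 1) by positivity)
  have h2 := tendsto_natCast_atTop_atTop (R := ℝ) |>.eventually h1
  filter_upwards [h2, e1] with x hx hx1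
  have h4 : 0 ≤ Real.log x := by linarith
  rw [Real.norm_eq_abs, Real.norm_eq_abs, abs_of_nonneg (show 0 ≤ Real.log x ^ a by positivity),
    abs_of_nonneg (show 0 ≤ (x : ℝ) ^ s by positivity)] at hx
  have hc : c ≤ |c| + 1 := by linarith [le_abs_self c]
  have h3 : 0 ≤ Real.log x ^ a := by positivity
  calc c * Real.log x ^ a ≤ (|c| + 1) * Real.log x ^ a := mul_le_mul_of_nonneg_right hc h3
    _ ≤ (|c| + 1) * (1 / (|c| + 1) * (x : ℝ) ^ s) := by gcongr
    _ = (x : ℝ) ^ s := by field_simp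

lemma rpow_ev (c s : ℝ) (hs : 0 < s) : ∀ᶠ x : ℕ in atTop, c ≤ (Real.log x) ^ s :=
  ((tendsto_rpow_atTop hs).comp tendsto_log_nat).eventually_ge_atTop c

lemma yf_bounds (h : ℕ) (hh : 0 < h) : ∀ᶠ x : ℕ in atTop, 1 ≤ yf h x ∧
    (yf h x : ℝ) ≤ Real.log x / (400 * h) ∧ Real.log x / (800 * h) ≤ yf h x := by
  have hh0 : (0 : ℝ) < h := by exact_mod_cast hh
  filter_upwards [tendsto_log_nat.eventually_ge_atTop (800 * h)] with x hx
  have h0 : 0 ≤ Real.log x / (400 * h) := by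
    apply div_nonneg _ (by positivity)
    exact Real.log_natCast_nonneg x
  have h1 : (yf h x : ℝ) ≤ Real.log x / (400 * h) := Nat.floor_le h0
  have h2 : Real.log x / (400 * h) < yf h x + 1 := Nat.lt_floor_add_one _
  have h3 : 1 ≤ Real.log x / (800 * h) := by
    rw [le_div_iff₀ (by positivity)]; linarith
  have h4 : Real.log x / (400 * h) = Real.log x / (800 * h) + Real.log x / (800 * h) := by
    field_simp; ring
  refine ⟨?_, h1, by linarith⟩
  have : (1 : ℝ) ≤ yf h x := by linarith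
  exact_mod_cast this

lemma wf_bounds (h : ℕ) (hh : 0 < h) : ∀ᶠ x : ℕ in atTop, 1 ≤ wf x ∧ wf x ≤ yf h x ∧
    (wf x : ℝ) ≤ Real.log x ^ (2 / 5 : ℝ) ∧ Real.log x ^ (2 / 5 : ℝ) / 2 ≤ wf x := by
  have hh0 : (0 : ℝ) < h := by exact_mod_cast hh
  filter_upwards [yf_bounds h hh, tendsto_log_nat.eventually_ge_atTop 1,
    rpow_ev 2 (2 / 5) (by norm_num), rpow_ev (800 * h) (3 / 5) (by norm_num)] with x h1 h2 h3 h4
  have h0 : 0 ≤ Real.log x ^ (2 / 5 : ℝ) := by positivity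
  have h5 : (wf x : ℝ) ≤ Real.log x ^ (2 / 5 : ℝ) := Nat.floor_le h0
  have h6 : Real.log x ^ (2 / 5 : ℝ) < wf x + 1 := Nat.lt_floor_add_one _
  refine ⟨?_, ?_, h5, by linarith⟩
  · have : (1 : ℝ) ≤ wf x := by
      have : (0 : ℝ) < wf x := by linarith
      exact_mod_cast this
    exact_mod_cast this
  · have h7 : Real.log x ^ (2 / 5 : ℝ) ≤ Real.log x / (800 * h) := by
      rw [le_div_iff₀ (by positivity)]
      have h8 : Real.log x = Real.log x ^ (2 / 5 : ℝ) * Real.log x ^ (3 / 5 : ℝ) := by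
        rw [← Real.rpow_add (by linarith)]; norm_num
      nth_rewrite 2 [h8]
      exact mul_le_mul_of_nonneg_left h4 h0
    have : (wf x : ℝ) ≤ yf h x := by linarith [h1.2.2]
    exact_mod_cast this

lemma K_lower (Q : ℕ) (hQ : 0 < Q) (ε : ℝ) (hε : 0 < ε) (hε1 : ε < 1) : ∀ᶠ x : ℕ in atTop,
    Real.log x ^ (2 / 5 * (1 - ε)) / 4 ≤ #((prs (wf x)).filter (fun q => ¬ q ∣ Q)) := by
  have ht : Tendsto wf atTop atTop :=
    tendsto_nat_floor_atTop.comp ((tendsto_rpow_atTop (by norm_num)).comp tendsto_log_nat)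
  filter_upwards [wf_bounds 1 one_pos, ht.eventually (prs_lower ε hε),
    rpow_ev (4 * Q) (2 / 5 * (1 - ε)) (by
      apply mul_pos (by norm_num); linarith),
    tendsto_log_nat.eventually_ge_atTop 1] with x h1 h2 h3 h4
  have hw := h1.2.2.2
  have h5 : Real.log x ^ (2 / 5 * (1 - ε)) / 2 ≤ (wf x : ℝ) ^ (1 - ε) := by
    have h6 : (Real.log x ^ (2 / 5 : ℝ) / 2) ^ (1 - ε) ≤ (wf x : ℝ) ^ (1 - ε) :=
      Real.rpow_le_rpow (by positivity) hw (by linarith)
    refine le_trans ?_ h6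
    rw [Real.div_rpow (by positivity) (by norm_num), ← Real.rpow_mul (by linarith)]
    apply div_le_div_of_nonneg_left (by positivity) (by positivity)
    calc (2 : ℝ) ^ (1 - ε) ≤ 2 ^ (1 : ℝ) :=
          Real.rpow_le_rpow_of_exponent_le (by norm_num) (by linarith)
      _ = 2 := Real.rpow_one 2
  have h6 : (#(prs (wf x)) : ℝ) ≤ #((prs (wf x)).filter (fun q => ¬ q ∣ Q)) + Q := by
    have h7 := card_filter_add_card_filter_not (s := prs (wf x)) (fun q => q ∣ Q)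
    have h8 : #((prs (wf x)).filter (fun q => q ∣ Q)) ≤ Q := by
      have : (prs (wf x)).filter (fun q => q ∣ Q) ⊆ Icc 1 Q := by
        intro q hq
        rw [mem_filter] at hq
        rw [mem_Icc]
        exact ⟨(mem_filter.mp hq.1).2.one_le, Nat.le_of_dvd hQ hq.2⟩
      have := card_le_card this
      simpa using this
    have : #(prs (wf x)) ≤ #((prs (wf x)).filter (fun q => ¬ q ∣ Q)) + Q := by omega
    exact_mod_cast this
  linarith

open Classical in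
theorem almostQ {ι : Type*} (h : ℕ) (hh : 0 < h) (ζ : ℂ) (hζ : IsPrimitiveRoot ζ (2 * h))
    (Q : ℕ) (hQ : 0 < Q) (Ψ : ι → ℕ →*₀ ℂ)
    (hΨ : ∀ a q, q.Prime → Ψ a q = 0 ∨ (Ψ a q) ^ (2 * h) = 1)
    (hΨQ : ∀ a q, q.Prime → q ∣ Q → Ψ a q = 0)
    (A : ℕ → Finset ι) (W : ℕ → ι → ℝ) (hW : ∀ x a, 0 ≤ W x a)
    (N : ℕ → ℕ) (hN1 : ∀ᶠ x : ℕ in atTop, (x : ℝ) ^ (1 / 50 : ℝ) ≤ N x)
    (hN2 : ∀ᶠ x : ℕ in atTop, N x ≤ x)
    (C : ℝ) (hC0 : 0 < C) (hC : ∀ᶠ x : ℕ in atTop, ∑ a ∈ A x, W x a ≤ C * (x / Real.log x))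
    (e : ℕ → ℝ) (he0 : ∀ x, 0 ≤ e x)
    (he : ∀ᶠ x : ℕ in atTop, e x ≤ (x : ℝ) ^ (9 / 10 : ℝ))
    (hcorr : ∀ᶠ x in atTop, ∀ n n', 1 ≤ n → n ≤ N x → 1 ≤ n' → n' ≤ N x → n.Coprime Q →
      n'.Coprime Q → (∃ q, q.Prime ∧ ¬ n.factorization q ≡ n'.factorization q [MOD 2 * h]) →
      ‖∑ a ∈ A x, (W x a : ℂ) * Ψ a n * conj (Ψ a n')‖ ≤ e x)
    (T : Set ℝ) (t0 : ℝ) (ht0 : 0 < t0) (hT0 : ∀ t ∈ T, t0 ≤ t)
    (CT : ℝ) (hCT : 0 < CT)
    (hTf : ∀ R : ℝ, 0 ≤ R → ∃ F : Finset ℝ, (#F : ℝ) ≤ CT * (R + 1) ∧ T ∩ Set.Iic R ⊆ F)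
    (Cη : ℝ) (hCη : 0 < Cη) (κ : ℝ) (hκ0 : 0 ≤ κ) (hκ : κ < 1 / 5) :
    (∀ᶠ x : ℕ in atTop, yf h x ≤ N x) ∧ ∀ᶠ x : ℕ in atTop,
      ∑ a ∈ (A x).filter (fun a => (∀ q, q.Prime → ¬ q ∣ Q → q ≤ yf h x → Ψ a q ≠ 0) ∧
        ∃ t ∈ T, |‖∑ n ∈ Icc 1 (N x), Ψ a n / n‖ ^ 2 - t| ≤ Cη / Real.log x), W x a ≤
        x / (Real.log x) ^ (1 + κ) := by
  have hh0 : (0 : ℝ) < h := by exact_mod_cast hh
  have hh1 : (1 : ℝ) ≤ h := by exact_mod_cast hh
  constructor
  · filter_upwards [hN1, yf_bounds h hh, log_rpow_le 1 1 (1 / 50) (by norm_num),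
      tendsto_log_nat.eventually_ge_atTop 1] with x h1 h2 h3 h4
    rw [one_mul, Real.rpow_one] at h3
    have h5 : (yf h x : ℝ) ≤ Real.log x := by
      refine h2.2.1.trans ?_
      apply div_le_self (by linarith)
      linarith
    have : (yf h x : ℝ) ≤ N x := by linarith
    exact_mod_cast this
  set ε : ℝ := (1 / 5 - κ) / 6 with hε
  have hε0 : 0 < ε := by rw [hε]; apply div_pos <;> linarith
  have hε1 : ε ≤ 1 / 30 := by rw [hε]; linarith
  obtain ⟨c, hc0, hc1, hgap⟩ := gapQ h hh ζ hζ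
  obtain ⟨Cτ, hCτ, hτ⟩ := tau_tailQ ε hε0 (by linarith)
  obtain ⟨CE, hCE, hprod⟩ := prodE ε hε0
  set t1 : ℝ := min t0 1 with ht1d
  have ht1 : 0 < t1 := lt_min ht0 one_pos
  have ht11 : t1 ≤ 1 := min_le_right _ _
  have hT1 : ∀ t ∈ T, t1 ≤ t := fun t ht => (min_le_left _ _).trans (hT0 t ht)
  -- constants
  set Ca : ℝ := 9216 * CE ^ 2 / (c ^ 2 * t1 ^ 2) with hCa
  set Cb : ℝ := Cτ * (800 * h) with hCb
  set Cc : ℝ := CT * (6 * CE ^ 2) with hCc
  have hCE0 : 0 < CE := by linarith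
  have hCa0 : 0 < Ca := by positivity
  have hCb0 : 0 < Cb := by positivity
  have hCc0 : 0 < Cc := by positivity
  set Cf : ℝ := Ca * (Cb * C + 1) + Cc * (2 * (C + 1)) with hCf
  have hCf0 : 0 < Cf := by positivity
  filter_upwards [yf_bounds h hh, wf_bounds h hh, K_lower Q hQ ε hε0 (by linarith), hN1, hN2, hC,
    he, hcorr, tendsto_log_nat.eventually_ge_atTop 8, rpow_ev Cf (3 * ε) (by positivity),
    log_rpow_le 4 4 (1 / 100) (by norm_num), eventually_ge_atTop 1,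
    rpow_ev (16 * Cη / (c * t1)) (3 / 5) (by norm_num),
    tendsto_log_nat.eventually_ge_atTop Cη,
    log_rpow_le 1 (96 * CE / (c * t1)) (3 / 500) (by norm_num)]
    with x hy hw hK hNx1 hNx2 hCx hex hcorrx hu8 hfin hpoly hx1 hη1 hη2 hsmall
  obtain ⟨hy1, hy2, hy3⟩ := hy
  obtain ⟨hw1, hw2, hw3, hw4⟩ := hw
  set u : ℝ := Real.log x with hu
  have hu1 : 1 ≤ u := by linarith
  have hu0 : 0 < u := by linarith
  have hx0 : (0 : ℝ) < x := by exact_mod_cast hx1
  have hxr : ∀ a : ℝ, (x : ℝ) ^ a = Real.exp (u * a) := by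
    intro a
    rw [Real.rpow_def_of_pos hx0]
  have hxmono : ∀ a b : ℝ, a ≤ b → (x : ℝ) ^ a ≤ (x : ℝ) ^ b := by
    intro a b hab
    exact Real.rpow_le_rpow_of_exponent_le (by exact_mod_cast hx1) hab
  set y := yf h x with hyd
  set w := wf x with hwd
  set s := (prs y).filter (fun q => ¬ q ∣ Q) with hs
  set K0 := (prs w).filter (fun q => ¬ q ∣ Q) with hK0
  have hw0 : (0 : ℝ) < w := by exact_mod_cast hw1
  have hy0 : (0 : ℝ) < y := by exact_mod_cast hy1
  have hyu : (y : ℝ) ≤ u := by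
    refine hy2.trans (div_le_self hu0.le ?_)
    linarith
  have hK0s : K0 ⊆ s := by
    intro q hq
    simp only [hK0, hs, prs, mem_filter, mem_Icc] at hq ⊢
    exact ⟨⟨⟨hq.1.1.1, hq.1.1.2.trans hw2⟩, hq.1.2⟩, hq.2⟩
  obtain ⟨K, hKK0, hKc⟩ := exists_subset_card_eq (s := K0) (n := 2 * (#K0 / 2)) (by omega)
  set n := #K0 / 2 with hn
  have hsc : #s ≤ y := by
    refine (card_le_card (filter_subset _ _)).trans ?_
    refine (card_le_card (filter_subset _ _)).trans ?_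
    simp
  have hlog4 : Real.log 4 ≤ 1.4 := by
    have h1 : Real.log 4 = 2 * Real.log 2 := by
      rw [show (4 : ℝ) = 2 ^ (2 : ℕ) by norm_num, Real.log_pow]; norm_num
    have := Real.log_two_lt_d9
    rw [h1]; linarith
  -- sizes
  have hNs : ∏ q ∈ s, q ^ (2 * h) ≤ N x := by
    rw [prod_pow]
    have h1 := Nat.pow_le_pow_left (prod_prs y s (filter_subset _ _)) (2 * h)
    have h2 : (((4 ^ y) ^ (2 * h) : ℕ) : ℝ) ≤ N x := by
      refine le_trans ?_ hNx1
      push_cast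
      rw [← pow_mul, ← Real.rpow_natCast, Real.rpow_def_of_pos (by norm_num), hxr]
      apply Real.exp_le_exp.mpr
      push_cast
      have h3 : (y : ℝ) * (2 * h) ≤ u / 200 := by
        have := mul_le_mul_of_nonneg_right hy2 (show (0 : ℝ) ≤ 2 * h by positivity)
        refine this.trans (le_of_eq ?_)
        field_simp; norm_num
      have h4 : Real.log 4 * ((y : ℝ) * (2 * h)) ≤ 1.4 * (u / 200) := by
        apply mul_le_mul hlog4 h3 (by positivity) (by norm_num)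
      linarith
    exact h1.trans (by exact_mod_cast h2)
  have hpow1 : (2 * h : ℝ) ^ #s ≤ (x : ℝ) ^ (1 / 200 : ℝ) := by
    have h0 : (1 : ℝ) ≤ 2 * h := by linarith
    refine (pow_le_pow_right₀ h0 hsc).trans ?_
    rw [← Real.rpow_natCast, Real.rpow_def_of_pos (by positivity), hxr]
    apply Real.exp_le_exp.mpr
    have h1 : Real.log (2 * h) ≤ 2 * h := by
      have := Real.log_le_sub_one_of_pos (show (0 : ℝ) < 2 * h by positivity)
      linarith
    calc Real.log (2 * h) * y ≤ 2 * h * (u / (400 * h)) :=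
          mul_le_mul h1 hy2 hy0.le (by positivity)
      _ = u * (1 / 200) := by field_simp; norm_num
  have hpow2 : (4 : ℝ) ^ #s ≤ (x : ℝ) ^ (1 / 250 : ℝ) := by
    refine (pow_le_pow_right₀ (by norm_num) hsc).trans ?_
    rw [← Real.rpow_natCast, Real.rpow_def_of_pos (by norm_num), hxr]
    apply Real.exp_le_exp.mpr
    have h2 : (y : ℝ) ≤ u / 400 := by
      refine hy2.trans ?_
      apply div_le_div_of_nonneg_left hu0.le (by norm_num)
      linarith
    calc Real.log 4 * y ≤ 1.4 * (u / 400) := mul_le_mul hlog4 h2 hy0.le (by norm_num)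
      _ ≤ u * (1 / 250) := by linarith
  -- parameters
  set uε : ℝ := u ^ ε with huε
  have huε1 : 1 ≤ uε := Real.one_le_rpow hu1 hε0.le
  set RE : ℝ := CE * uε with hREd
  have hRE : 1 ≤ RE := one_le_mul_of_one_le_of_one_le hCE huε1
  have hE : ∀ a, ‖∏ q ∈ s, (1 - Ψ a q / q)⁻¹‖ ≤ RE := by
    intro a
    refine (hprod y hy1 s (filter_subset _ _) (fun q => Ψ a q)
      (fun q _ => norm_le_one (Ψ a) (2 * h) (by omega) (hΨ a) q)).trans ?_
    rw [hREd]
    apply mul_le_mul_of_nonneg_left _ (by linarith)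
    exact Real.rpow_le_rpow hy0.le hyu hε0.le
  set θ0 : ℝ := (c / w) / (4 * (1 + c / w)) with hθ0
  have hw1R : (1 : ℝ) ≤ w := by exact_mod_cast hw1
  have hcw1 : c / w ≤ 1 := by
    rw [div_le_one hw0]; linarith
  have hcw0 : 0 < c / w := by positivity
  have hθ00 : 0 < θ0 := by rw [hθ0]; positivity
  set U : ℝ := u ^ (2 / 5 : ℝ) with hU
  have hU0 : 0 < U := by positivity
  have hU1 : 1 ≤ U := Real.one_le_rpow hu1 (by norm_num)
  have hθlow : c / (8 * U) ≤ θ0 := by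
    have h1 : c / (8 * U) ≤ (c / w) / 8 := by
      rw [div_div]
      apply div_le_div_of_nonneg_left hc0.le (by positivity)
      linarith
    refine h1.trans ?_
    rw [hθ0]
    apply div_le_div_of_nonneg_left hcw0.le (by positivity)
    linarith
  have hθhigh : θ0 ≤ 1 / 4 := by
    rw [hθ0, div_le_iff₀ (by positivity)]; linarith
  set η' : ℝ := θ0 * t1 / (2 * (2 * RE + 1)) with hη'd
  have hη'0 : 0 < η' := by positivity
  have hη'low : c * t1 / (48 * CE * U * uε) ≤ η' := by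
    have h1 : c * t1 / (48 * CE * U * uε) = (c / (8 * U)) * t1 / (6 * (CE * uε)) := by
      field_simp; norm_num
    rw [h1, hη'd]
    apply div_le_div₀ (by positivity) _ (by positivity)
    · have h2 : 2 * (2 * RE + 1) ≤ 6 * RE := by linarith
      exact h2
    · exact mul_le_mul_of_nonneg_right hθlow ht1.le
  have hη'1 : η' ≤ 1 := by
    rw [hη'd, div_le_one (by positivity)]
    have h1 : θ0 * t1 ≤ 1 * 1 := mul_le_mul (by linarith) ht11 ht1.le zero_le_one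
    linarith
  have hUuε : U * uε ≤ u := by
    rw [hU, huε, ← Real.rpow_add hu0]
    calc u ^ (2 / 5 + ε) ≤ u ^ (1 : ℝ) := Real.rpow_le_rpow_of_exponent_le hu1 (by linarith)
      _ = u := Real.rpow_one u
  have hsm : (N x : ℝ) ^ (-(1 / 2) : ℝ) * 4 ^ #s ≤ η' / 2 := by
    have h1 : (N x : ℝ) ^ (-(1 / 2) : ℝ) ≤ (x : ℝ) ^ (-(1 / 100) : ℝ) := by
      have h2 : ((x : ℝ) ^ (1 / 50 : ℝ)) ^ (-(1 / 2) : ℝ) = (x : ℝ) ^ (-(1 / 100) : ℝ) := by
        rw [← Real.rpow_mul hx0.le]; norm_num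
      rw [← h2]
      exact Real.rpow_le_rpow_of_nonpos (by positivity) hNx1 (by norm_num)
    have h2 : (N x : ℝ) ^ (-(1 / 2) : ℝ) * 4 ^ #s ≤ (x : ℝ) ^ (-(3 / 500) : ℝ) := by
      calc _ ≤ (x : ℝ) ^ (-(1 / 100) : ℝ) * (x : ℝ) ^ (1 / 250 : ℝ) :=
            mul_le_mul h1 hpow2 (by positivity) (by positivity)
        _ = _ := by rw [← Real.rpow_add hx0]; norm_num
    refine h2.trans ?_
    rw [Real.rpow_neg hx0.le]
    have h3 : η' / 2 ≥ c * t1 / (96 * CE * u) := by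
      have h4 : c * t1 / (96 * CE * u) ≤ c * t1 / (48 * CE * U * uε) / 2 := by
        rw [div_div]
        apply div_le_div_of_nonneg_left (by positivity) (by positivity)
        calc 48 * CE * U * uε * 2 = 96 * CE * (U * uε) := by ring
          _ ≤ 96 * CE * u := mul_le_mul_of_nonneg_left hUuε (by positivity)
      linarith
    refine le_trans ?_ h3
    rw [inv_le_comm₀ (by positivity) (by positivity), inv_div]
    refine le_trans (le_of_eq ?_) hsmall
    rw [Real.rpow_one]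
    ring
  obtain ⟨TR, hTRc, hTR⟩ := hTf ((RE + 1) ^ 2 + 1) (by positivity)
  have hη2' : Cη / u ≤ θ0 * t1 / 2 := by
    have h1 : Cη / u ≤ (c / (8 * U)) * t1 / 2 := by
      rw [div_mul_eq_mul_div, div_div, div_le_div_iff₀ hu0 (by positivity)]
      rw [div_le_iff₀ (by positivity)] at hη1
      have h2 : u = U * u ^ (3 / 5 : ℝ) := by
        rw [hU, ← Real.rpow_add hu0]; norm_num
      have h3 := mul_le_mul_of_nonneg_right hη1 hU0.le
      calc Cη * (8 * U * 2) = 16 * Cη * U := by ring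
        _ ≤ u ^ (3 / 5 : ℝ) * (c * t1) * U := h3
        _ = c * t1 * (U * u ^ (3 / 5 : ℝ)) := by ring
        _ = c * t1 * u := by rw [← h2]
    refine h1.trans ?_
    have := mul_le_mul_of_nonneg_right hθlow ht1.le
    linarith
  have hNx1' : 1 ≤ N x := by
    have h1 : (1 : ℝ) ≤ (x : ℝ) ^ (1 / 50 : ℝ) :=
      Real.one_le_rpow (by exact_mod_cast hx1) (by norm_num)
    exact_mod_cast h1.trans hNx1
  have hmain := coreQ h hh ζ hζ Q Ψ hΨ hΨQ (A x) (W x) (hW x) (N x) hNx1' (e x) (he0 x) hcorrx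
    T t1 ht1 hT1 c hc0 hgap y w hw1 s hs K (hKK0.trans hK0s) n hKc
    (fun q hq => by
      have := hKK0 hq
      simp only [hK0, prs, mem_filter, mem_Icc] at this
      exact this.1.1.2) hNs RE hRE hE θ0 hθ0 (Cη / u) η'
    (by rw [div_le_one hu0]; exact hη2) hη2' hη'0 hη'1
    (by rw [hη'd]; field_simp; exact le_rfl) TR hTR hsm
    (Cτ * (y : ℝ) ^ (-(1 - ε))) (hτ y (N x) hy1)
  refine hmain.trans ?_
  set M : ℝ := x / u with hM
  have hM0 : 0 < M := by positivity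
  set WT := ∑ a ∈ A x, W x a with hWT
  have hWT0 : 0 ≤ WT := sum_nonneg fun a _ => hW x a
  have hex0 : 0 ≤ e x := he0 x
  clear hmain
  -- the pieces
  have b1 : 4 / η' ^ 2 ≤ Ca * (U ^ 2 * uε ^ 2) := by
    have h1 : (c * t1 / (48 * CE * U * uε)) ^ 2 ≤ η' ^ 2 :=
      pow_le_pow_left₀ (by positivity) hη'low 2
    calc 4 / η' ^ 2 ≤ 4 / (c * t1 / (48 * CE * U * uε)) ^ 2 :=
          div_le_div_of_nonneg_left (by norm_num) (by positivity) h1
      _ = Ca * (U ^ 2 * uε ^ 2) := by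
          rw [hCa]; field_simp; norm_num
  have b2 : Cτ * (y : ℝ) ^ (-(1 - ε)) ≤ Cb * (uε / u) := by
    have h1 : (y : ℝ) ^ (-(1 - ε)) ≤ (u / (800 * h)) ^ (-(1 - ε)) :=
      Real.rpow_le_rpow_of_nonpos (by positivity) hy3 (by linarith)
    have h2 : (u / (800 * h)) ^ (-(1 - ε)) ≤ (800 * h) * (uε / u) := by
      rw [Real.div_rpow hu0.le (by positivity), Real.rpow_neg (by positivity : (0 : ℝ) ≤ 800 * h),
        div_inv_eq_mul, mul_comm]
      apply mul_le_mul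
      · calc (800 * (h : ℝ)) ^ (1 - ε) ≤ (800 * (h : ℝ)) ^ (1 : ℝ) :=
              Real.rpow_le_rpow_of_exponent_le (by linarith) (by linarith)
          _ = _ := Real.rpow_one _
      · rw [huε, ← Real.rpow_sub_one hu0.ne']
        apply le_of_eq
        congr 1; ring
      · positivity
      · positivity
    calc Cτ * (y : ℝ) ^ (-(1 - ε)) ≤ Cτ * ((800 * h) * (uε / u)) := by
          apply mul_le_mul_of_nonneg_left (h1.trans h2) hCτ.le
      _ = _ := by rw [hCb]; ring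
  have hpoly' : 4 * u ^ 4 ≤ (x : ℝ) ^ (1 / 100 : ℝ) := by
    have : u ^ (4 : ℝ) = u ^ 4 := by
      rw [show (4 : ℝ) = ((4 : ℕ) : ℝ) by norm_num, Real.rpow_natCast]
    rwa [this] at hpoly
  have hu4 : u ≤ u ^ 4 := le_self_pow₀ hu1 (by norm_num)
  have b4 : (1 + Real.log (N x)) ^ 2 * e x ≤ M / u := by
    have h1 : Real.log (N x) ≤ u := by
      apply Real.log_le_log
      · exact_mod_cast hNx1'
      · exact_mod_cast hNx2
    have h0 : 0 ≤ Real.log (N x) := Real.log_natCast_nonneg _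
    have h2 : (1 + Real.log (N x)) ^ 2 ≤ 4 * u ^ 2 := by
      calc (1 + Real.log (N x)) ^ 2 ≤ (2 * u) ^ 2 :=
            pow_le_pow_left₀ (by linarith) (by linarith) 2
        _ = 4 * u ^ 2 := by ring
    rw [hM, div_div, le_div_iff₀ (by positivity)]
    calc (1 + Real.log (N x)) ^ 2 * e x * (u * u) ≤ 4 * u ^ 2 * (x : ℝ) ^ (9 / 10 : ℝ) * (u * u) := by
          apply mul_le_mul_of_nonneg_right _ (by positivity)
          exact mul_le_mul h2 hex (he0 x) (by positivity)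
      _ = 4 * u ^ 4 * (x : ℝ) ^ (9 / 10 : ℝ) := by ring
      _ ≤ (x : ℝ) ^ (1 / 100 : ℝ) * (x : ℝ) ^ (9 / 10 : ℝ) :=
          mul_le_mul_of_nonneg_right hpoly' (by positivity)
      _ = (x : ℝ) ^ (91 / 100 : ℝ) := by rw [← Real.rpow_add hx0]; norm_num
      _ ≤ (x : ℝ) ^ (1 : ℝ) := hxmono _ _ (by norm_num)
      _ = x := Real.rpow_one _
  have b5 : (2 * h : ℝ) ^ #s * e x ≤ M := by
    rw [hM, le_div_iff₀ hu0]
    calc (2 * h : ℝ) ^ #s * e x * u ≤ (x : ℝ) ^ (1 / 200 : ℝ) * (x : ℝ) ^ (9 / 10 : ℝ) *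
          (x : ℝ) ^ (1 / 100 : ℝ) := by
          apply mul_le_mul _ _ hu0.le (by positivity)
          · exact mul_le_mul hpow1 hex (he0 x) (by positivity)
          · have h9 : 0 < u ^ 4 := by positivity
            exact hu4.trans ((le_mul_of_one_le_left h9.le (by norm_num)).trans hpoly')
      _ = (x : ℝ) ^ (183 / 200 : ℝ) := by
          rw [← Real.rpow_add hx0, ← Real.rpow_add hx0]; norm_num
      _ ≤ (x : ℝ) ^ (1 : ℝ) := hxmono _ _ (by norm_num)
      _ = x := Real.rpow_one _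
  have b6 : (#TR : ℝ) ≤ Cc * uε ^ 2 := by
    refine hTRc.trans ?_
    rw [hCc, mul_assoc]
    apply mul_le_mul_of_nonneg_left _ hCT.le
    have : 6 * CE ^ 2 * uε ^ 2 = 6 * RE ^ 2 := by rw [hREd]; ring
    rw [this]
    have h1 : (RE + 1) ^ 2 ≤ (2 * RE) ^ 2 := pow_le_pow_left₀ (by linarith) (by linarith) 2
    have h2 : 1 ≤ RE ^ 2 := one_le_pow₀ hRE
    have h3 : (2 * RE) ^ 2 = 4 * RE ^ 2 := by ring
    linarith
  have b7 : 1 / Real.sqrt (2 * n + 1) ≤ 2 * (uε / u ^ (1 / 5 : ℝ)) := by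
    have h1 : u ^ (2 / 5 * (1 - ε)) / 4 ≤ 2 * n + 1 := by
      refine hK.trans ?_
      have : #K0 ≤ 2 * n + 1 := by omega
      exact_mod_cast this
    have h2 : u ^ (1 / 5 - ε) / 2 ≤ Real.sqrt (2 * n + 1) := by
      apply Real.le_sqrt_of_sq_le
      refine le_trans ?_ h1
      rw [div_pow, ← Real.rpow_natCast (u ^ (1 / 5 - ε)), ← Real.rpow_mul hu0.le]
      norm_num
      apply div_le_div_of_nonneg_right _ (by norm_num)
      apply Real.rpow_le_rpow_of_exponent_le hu1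
      linarith
    have h3 : 0 < u ^ (1 / 5 - ε) / 2 := by positivity
    calc 1 / Real.sqrt (2 * n + 1) ≤ 1 / (u ^ (1 / 5 - ε) / 2) :=
          one_div_le_one_div_of_le h3 h2
      _ = 2 * (uε / u ^ (1 / 5 : ℝ)) := by
          rw [Real.rpow_sub hu0, huε]
          field_simp
  -- assembling
  have c1 : 4 / η' ^ 2 * (Cτ * (y : ℝ) ^ (-(1 - ε)) * WT + (1 + Real.log (N x)) ^ 2 * e x) ≤
      Ca * (U ^ 2 * uε ^ 2) * ((Cb * C + 1) * (uε / u) * M) := by
    apply mul_le_mul b1 _ (by positivity) (by positivity)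
    have h1 : Cτ * (y : ℝ) ^ (-(1 - ε)) * WT ≤ Cb * (uε / u) * (C * M) :=
      mul_le_mul b2 hCx hWT0 (by positivity)
    have h2 : M / u ≤ (uε / u) * M := by
      rw [div_mul_eq_mul_div]
      apply div_le_div_of_nonneg_right _ hu0.le
      exact le_mul_of_one_le_left hM0.le huε1
    calc _ ≤ Cb * (uε / u) * (C * M) + (uε / u) * M := add_le_add h1 (b4.trans h2)
      _ = _ := by ring
  have c2 : #TR * (1 / Real.sqrt (2 * n + 1) * (WT + (2 * h : ℝ) ^ #s * e x)) ≤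
      Cc * uε ^ 2 * (2 * (uε / u ^ (1 / 5 : ℝ)) * ((C + 1) * M)) := by
    apply mul_le_mul b6 _ (by positivity) (by positivity)
    apply mul_le_mul b7 _ (by positivity) (by positivity)
    have : WT ≤ C * M := hCx
    linarith
  refine (add_le_add c1 c2).trans ?_
  have hU5 : U ^ 2 / u = 1 / u ^ (1 / 5 : ℝ) := by
    rw [hU, ← Real.rpow_natCast, ← Real.rpow_mul hu0.le, one_div, ← Real.rpow_neg hu0.le]
    norm_num
    rw [← Real.rpow_sub_one hu0.ne']
    norm_num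
  have c3 : Ca * (U ^ 2 * uε ^ 2) * ((Cb * C + 1) * (uε / u) * M) +
      Cc * uε ^ 2 * (2 * (uε / u ^ (1 / 5 : ℝ)) * ((C + 1) * M)) =
      Cf * (uε ^ 3 / u ^ (1 / 5 : ℝ)) * M := by
    have h1 : Ca * (U ^ 2 * uε ^ 2) * ((Cb * C + 1) * (uε / u) * M) =
        Ca * (Cb * C + 1) * uε ^ 3 * M * (U ^ 2 / u) := by ring
    rw [h1, hU5, hCf]
    ring
  rw [c3]
  have c4 : uε ^ 3 = u ^ (3 * ε) := by
    rw [huε, ← Real.rpow_natCast, ← Real.rpow_mul hu0.le]
    congr 1; push_cast; ring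
  calc Cf * (uε ^ 3 / u ^ (1 / 5 : ℝ)) * M ≤
        u ^ (3 * ε) * (uε ^ 3 / u ^ (1 / 5 : ℝ)) * M := by
        apply mul_le_mul_of_nonneg_right _ hM0.le
        exact mul_le_mul_of_nonneg_right hfin (by positivity)
    _ = u ^ (-κ) * M := by
        congr 1
        rw [c4, ← Real.rpow_sub hu0, ← Real.rpow_add hu0]
        congr 1
        rw [hε]; ring
    _ = x / u ^ (1 + κ) := by
        rw [hM, Real.rpow_neg hu0.le, Real.rpow_add hu0, Real.rpow_one]
        field_simp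

end Pool.Agent.T9h29.QA
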