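import Mathlib
import Pool.Agent.R361.SX.Six
import Pool.Agent.T9h29.QA.Gen

set_option autoImplicit false

/-! # The sextic indices, with a power of the logarithm -/

namespace Pool.Agent.T9h29.QA

open Finset Filter Topology
open Pool.Agent.Y692.QS
open Pool.Agent.R361.AC (oddTo cw)
open Pool.Agent.R361.QF (cm cm_prime cm_eq_hom dh dh_apply cm_zero_of_dvd norm_short ev_small ev_pow
  Nf Nf_lt Yf generic_count)
open Pool.Agent.R361.SX
open scoped ComplexConjugate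

lemma T6_ge (t : ℝ) (ht : t ∈ T6) : 1 ≤ t := by
  obtain ⟨u, hu, m, hm, rfl⟩ := ht
  have hpi := Real.pi_gt_three
  have h0 : (1 : ℝ) ≤ 4 / 9 * (Real.pi ^ 2 / 4) := by nlinarith
  have h1 := fac_lower u hu
  have h2 : (1 : ℝ) ≤ m := by exact_mod_cast hm
  have h3 : 4 / 9 * (Real.pi ^ 2 / 4 * (m : ℝ)) ≤ ‖1 - u / 3‖ ^ 2 * (Real.pi ^ 2 / 4 * m) :=
    mul_le_mul_of_nonneg_right h1 (by positivity)
  nlinarith

lemma T6_finQ (R : ℝ) (hR : 0 ≤ R) :
    ∃ F : Finset ℝ, (#F : ℝ) ≤ 6 * (R + 1) ∧ T6 ∩ Set.Iic R ⊆ F := by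
  classical
  have hpi := Real.pi_gt_three
  have h0 : (1 : ℝ) ≤ 4 / 9 * (Real.pi ^ 2 / 4) := by nlinarith
  refine ⟨(Polynomial.nthRootsFinset 6 (1 : ℂ) ×ˢ range (⌊R⌋₊ + 1)).image
    (fun z : ℂ × ℕ => ‖1 - z.1 / 3‖ ^ 2 * (Real.pi ^ 2 / 4 * (z.2 : ℝ))), ?_, ?_⟩
  · refine le_trans (b := ((#(Polynomial.nthRootsFinset 6 (1 : ℂ) ×ˢ range (⌊R⌋₊ + 1)) : ℕ) : ℝ))
      (by exact_mod_cast card_image_le) ?_
    rw [card_product, card_range]
    have h1 : #(Polynomial.nthRootsFinset 6 (1 : ℂ)) ≤ 6 := by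
      rw [(Complex.isPrimitiveRoot_exp 6 (by norm_num)).card_nthRootsFinset]
    have h2 : (#(Polynomial.nthRootsFinset 6 (1 : ℂ)) : ℝ) ≤ 6 := by exact_mod_cast h1
    have h3 := Nat.floor_le hR
    push_cast
    apply mul_le_mul h2 (by linarith) (by positivity) (by norm_num)
  · rintro t ⟨⟨u, hu, m, hm, rfl⟩, hR'⟩
    rw [mem_coe, mem_image]
    refine ⟨(u, m), ?_, rfl⟩
    rw [mem_product, Polynomial.mem_nthRootsFinset (by norm_num), mem_range]
    refine ⟨hu, ?_⟩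
    have : m ≤ ⌊R⌋₊ := by
      apply Nat.le_floor
      rw [Set.mem_Iic] at hR'
      have hm0 : (0 : ℝ) ≤ m := Nat.cast_nonneg m
      have h1 := fac_lower u hu
      refine le_trans ?_ hR'
      have h2 : 4 / 9 * (Real.pi ^ 2 / 4 * (m : ℝ)) ≤ ‖1 - u / 3‖ ^ 2 * (Real.pi ^ 2 / 4 * m) :=
        mul_le_mul_of_nonneg_right h1 (by positivity)
      nlinarith
    omega

theorem six_countQ (κ : ℝ) (hκ0 : 0 ≤ κ) (hκ : κ < 1 / 5) :
    ∀ᶠ x : ℕ in atTop,
      (Nat.card {p : ℕ | p ≤ x ∧ p ∈ P6 ∧ B6 p} : ℝ) ≤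
        x / (Real.log x) ^ (1 + κ) := by
  obtain ⟨J, hJ⟩ := exists_J
  have hnr : ∀ p ∈ P6, nr (J p) = p := by
    intro p hp
    obtain ⟨π, hπ, hJp⟩ := hJ p hp
    have h12 : p % 12 = 7 := hp.2
    have h3 : ¬ (3 : ℤ) ∣ nr π := by rw [hπ]; omega
    rw [hJp, nr_ns h3, hπ]
  apply genericQ (A := -1) (B := -1) 3 (by norm_num) 6 (by norm_num) psi6 psi6_QD
    (fun q => if q % 4 = 3 then -1 else 1) (fun q => by
      by_cases h : q % 4 = 3
      · right; simp [h]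
      · left; simp [h])
    x3 3 Nat.prime_three x3_prime (x3_zero 3 rfl) (1 / 2) (by norm_num) x3_lower x3_split ei_size
    P6 (fun p hp => hp.1) J _ _ T6 1 one_pos T6_ge 6 (by norm_num) T6_finQ B6 384 (by norm_num) _
    κ hκ0 hκ
  · intro p hp
    rw [← nr_eq]
    exact hnr p hp
  · intro p hp q hq hqQ hqp
    have hF : Fact q.Prime := ⟨hq⟩
    have hd : ¬ (q : ℤ) ∣ nr (J p) := by
      rw [hnr p hp]
      intro h
      have : q ∣ p := by exact_mod_cast h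
      exact hqp ((Nat.prime_dvd_prime_iff_eq hq hp.1).mp this)
    rw [psi6_eq q hqQ _ hd]
    obtain ⟨h1, h2⟩ := psi6_parts q hqQ _ hd
    apply mul_ne_zero
    · intro h; rw [h] at h1; norm_num at h1
    · intro h; rw [h] at h2; norm_num at h2
  · obtain ⟨x0, hx0⟩ := Pool.Agent.R361.AC.cot_approx (1 / 50) (by norm_num) (by norm_num)
    filter_upwards [eventually_ge_atTop x0, ev_pow,
      Pool.Agent.R361.AC.tendsto_log_nat.eventually_ge_atTop 1, eventually_ge_atTop 144] with x hx1 hx3 hx4 hx5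
    obtain ⟨hlog, Exc, hE, happ⟩ := hx0 x hx1
    refine ⟨Exc, hE, ?_⟩
    intro p hp hxp hpx hpE hB
    obtain ⟨π, hπ, hJp⟩ := hJ p hp
    have hF : Fact p.Prime := ⟨hp.1⟩
    have hp12 : p % 12 = 7 := hp.2
    have hp3 : p ≠ 3 := by omega
    have h13 : 13 ≤ p := by nlinarith
    set c : DirichletCharacter ℂ p := (c6 hπ hp3).ringHomComp toC with hc
    have hodd : DirichletCharacter.Odd c := c6_odd hπ hp3 hp12
    have hc1 : c ≠ 1 := by
      intro h
      rw [h] at hodd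
      unfold DirichletCharacter.Odd at hodd
      rw [MulChar.one_apply (isUnit_one.neg)] at hodd
      norm_num at hodd
    have h1 := happ p hp.1 hpx hxp hpE c hc1 (Nf x) hx3.2.1 hx3.2.2
    have h2 := happ p hp.1 hpx hxp hpE c hc1 (Nf x / 3) hx3.1 (le_trans (by
      exact_mod_cast Nat.div_le_self _ _) hx3.2.2)
    obtain ⟨m, hm, hmv⟩ := target6 hπ hp3 hp12 h13 hB
    rw [← hc] at hmv
    have hNp : Nf x < p := Nf_lt (by omega) hxp
    set F := ∑ n ∈ oddTo (p - 1), c (n : ZMod p) * (cw p n : ℂ) with hFd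
    set v := c ((3 : ℕ) : ZMod p) with hv
    have hv6 : v ^ 6 = 1 := by
      apply c6_pow hπ hp3 hp12
      rw [Ne, ZMod.natCast_eq_zero_iff]
      intro hd
      have := Nat.le_of_dvd (by norm_num) hd
      omega
    refine ⟨‖1 - v / 3‖ ^ 2 * (Real.pi ^ 2 / 4 * m), ⟨v, hv6, m, hm, rfl⟩, ?_⟩
    rw [hJp, short6 hπ hp3 hp12 (Nf x) hNp, ← hc, ← hv, ← hmv, ← mul_pow, ← norm_mul]
    have hlogN : ∀ N : ℕ, N ≤ Nf x → Real.log N ≤ Real.log x := by
      intro N hN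
      rcases Nat.eq_zero_or_pos N with h0 | h0
      · rw [h0]; simp; linarith
      · apply Real.log_le_log (by exact_mod_cast h0)
        exact_mod_cast (hN.trans (hNp.le.trans hpx))
    refine le_trans (diff6 F _ _ v (Real.log x) hx4 (Pool.Agent.R361.QF.norm_char_le c 3) h1 h2 ?_ ?_)
      (le_of_eq (by ring))
    · refine (norm_short c (Nf x)).trans ?_
      linarith [hlogN (Nf x) le_rfl]
    · refine (norm_short c (Nf x / 3)).trans ?_
      linarith [hlogN (Nf x / 3) (Nat.div_le_self _ _)]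

end Pool.Agent.T9h29.QA
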